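import Pool.Agent.Q161.ESG.Stm5
import Pool.Agent.Q299.ESM.Gal

/-!
# Project ESG (helper161), job EMBW (helper151)
-/

set_option autoImplicit false
set_option linter.all false

namespace Pool.Agent.Q151.ESG

open Polynomial NumberField IsDedekindDomain
open Pool.Agent.Q161.ESG
open Pool.Agent.Q161.ESM
open Pool.Agent.Q51.EL (Abv)
open Pool.Agent.Q299.ESM (liesOver trans_above)

section

variable {K : Type} [Field K] [NumberField K]

/-- the inertia group at an unramified prime is trivial -/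
theorem inertia_triv [IsGalois ℚ K] {l : ℕ} (hl : l.Prime)
    (hsq : Squarefree (Ideal.span {(l : 𝓞 K)})) (w : HeightOneSpectrum (𝓞 K)) (hw : Abv w l)
    (σ : K ≃ₐ[ℚ] K) (hσ : ∀ x : 𝓞 K, σ • x - x ∈ w.asIdeal) : σ = 1 := by
  have hwp := w.isPrime
  have hlo := liesOver hl hw
  have hlZ : Prime (l : ℤ) := Nat.prime_iff_prime_int.1 hl
  have hlp : (Ideal.span {(l : ℤ)}).IsPrime := (Ideal.span_singleton_prime hlZ.ne_zero).2 hlZ
  have hbot : Ideal.span {(l : ℤ)} ≠ ⊥ := by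
    rw [Ne, Ideal.span_singleton_eq_bot]
    exact hlZ.ne_zero
  have hmap : (Ideal.span {(l : ℤ)}).map (algebraMap ℤ (𝓞 K)) = Ideal.span {(l : 𝓞 K)} := by
    rw [Ideal.map_span, Set.image_singleton]
    simp
  have h1 : Nat.card (w.asIdeal.inertia (K ≃ₐ[ℚ] K)) = 1 := by
    rw [Ideal.card_inertia_eq_ramificationIdxIn (Ideal.span {(l : ℤ)}) w.asIdeal,
      Ideal.ramificationIdxIn_eq_ramificationIdx _ w.asIdeal (K ≃ₐ[ℚ] K),
      ← Ideal.ramificationIdx'_eq_ramificationIdx (Ideal.span {(l : ℤ)}) w.asIdeal hbot]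
    by_contra hne
    have hle : (Ideal.span {(l : ℤ)}).map (algebraMap ℤ (𝓞 K)) ≤ w.asIdeal := by
      rw [hmap, Ideal.span_singleton_le_iff_mem]
      exact hw
    rw [← Ne, Ideal.ramificationIdx'_ne_one_iff hle, hmap] at hne
    have h2 : w.asIdeal * w.asIdeal ∣ Ideal.span {(l : 𝓞 K)} := by
      rw [← pow_two]
      exact Ideal.dvd_iff_le.2 hne
    have h3 := hsq _ h2
    rw [Ideal.isUnit_iff] at h3
    exact hwp.ne_top h3
  have h2 : σ ∈ w.asIdeal.inertia (K ≃ₐ[ℚ] K) := hσ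
  have h3 : Subsingleton (w.asIdeal.inertia (K ≃ₐ[ℚ] K)) := (Nat.card_eq_one_iff_unique.1 h1).1
  have h4 := Subsingleton.elim (⟨σ, h2⟩ : w.asIdeal.inertia (K ≃ₐ[ℚ] K)) 1
  exact congrArg Subtype.val h4

theorem frac_unit (w : HeightOneSpectrum (𝓞 K)) {y : K} (hy : w.valuation K y = 1) :
    ∃ a b : 𝓞 K, a ∉ w.asIdeal ∧ b ∉ w.asIdeal ∧ y * (b : K) = a := by
  obtain ⟨a, b, h⟩ := w.exists_primeCompl_mul_eq_of_integer y hy.le
  have hb : w.valuation K ((b : 𝓞 K) : K) = 1 := by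
    rw [HeightOneSpectrum.valuation_eq_one_iff_notMem]
    exact b.2
  refine ⟨a, b, ?_, b.2, h⟩
  rw [← HeightOneSpectrum.valuation_eq_one_iff_notMem (K := K), ← h, map_mul, hy, hb, one_mul]

theorem val_l {l : ℕ} (hsq : Squarefree (Ideal.span {(l : 𝓞 K)})) (hl : l ≠ 0)
    (w : HeightOneSpectrum (𝓞 K)) (hw : Abv w l) :
    w.valuation K (l : K) = WithZero.exp (-1 : ℤ) := by
  have h0 : ((l : 𝓞 K) : K) = (l : K) := map_natCast _ _
  have hl0 : (l : 𝓞 K) ≠ 0 := Nat.cast_ne_zero.2 hl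
  have h1 : w.intValuation (l : 𝓞 K) = WithZero.exp (-1 : ℤ) := by
    rw [w.intValuation_if_neg hl0]
    obtain ⟨k, hk⟩ : ∃ k : ℕ, k = (Associates.mk w.asIdeal).count
      (Associates.mk (Ideal.span {(l : 𝓞 K)})).factors := ⟨_, rfl⟩
    have e1 : w.intValuation (l : 𝓞 K) = WithZero.exp (-(k : ℤ)) := by
      rw [w.intValuation_if_neg hl0, hk]
    rw [← hk]
    have h2 : w.intValuation (l : 𝓞 K) ≤ WithZero.exp (-((1 : ℕ) : ℤ)) := by
      rw [w.intValuation_le_pow_iff_mem, pow_one]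
      exact hw
    have h3 : ¬ w.intValuation (l : 𝓞 K) ≤ WithZero.exp (-((2 : ℕ) : ℤ)) := by
      intro h
      rw [w.intValuation_le_pow_iff_dvd, pow_two] at h
      have h4 := hsq _ h
      rw [Ideal.isUnit_iff] at h4
      exact w.isPrime.ne_top h4
    rw [e1, WithZero.exp_le_exp] at h2 h3
    have : k = 1 := by
      push_cast at h2 h3
      omega
    rw [this]
    simp
  rw [← h0, ← h1]
  exact w.valuation_of_algebraMap _

end

theorem embw : S_EMBW := by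
  intro K _ _ _ l _ hsq w hw
  have hl : l.Prime := Fact.out
  have hwp := w.isPrime
  obtain ⟨ψ0⟩ : Nonempty (K →ₐ[ℚ] PadicAlgCl l) := ⟨IsAlgClosed.lift⟩
  -- integers have norm at most one
  have hint : ∀ x : PadicAlgCl l, IsIntegral ℤ x → ‖x‖ ≤ 1 := by
    intro x hx
    obtain ⟨v, hv⟩ : ∃ v : Valuation (PadicAlgCl l) NNReal, v = NormedField.valuation := ⟨_, rfl⟩
    have h1 : IsIntegral v.integer x := hx.tower_top
    have h2 := (Valuation.integer.integers v).mem_of_integral h1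
    rw [Valuation.mem_integer_iff, hv] at h2
    exact_mod_cast h2
  have hK : ∀ (ψ : K →+* PadicAlgCl l) (x : 𝓞 K), ‖ψ (x : K)‖ ≤ 1 := by
    intro ψ x
    apply hint
    exact (RingOfIntegers.isIntegral_coe x).map (ψ.toIntAlgHom)
  have hnl : ‖(l : PadicAlgCl l)‖ = (l : ℝ)⁻¹ := by
    have h1 : (l : PadicAlgCl l) = algebraMap ℚ_[l] (PadicAlgCl l) (l : ℚ_[l]) := by
      rw [map_natCast]
    rw [h1, norm_algebraMap', Padic.norm_p]
  have hl1 : (1 : ℝ) < l := by exact_mod_cast hl.one_lt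
  -- the prime of `ψ0`
  obtain ⟨P0, hP0⟩ : ∃ P0 : Ideal (𝓞 K), ∀ x : 𝓞 K, x ∈ P0 ↔ ‖ψ0 (x : K)‖ < 1 := by
    refine ⟨{ carrier := {x | ‖ψ0 (x : K)‖ < 1}
              zero_mem' := by simp
              add_mem' := fun {a b} ha hb => ?_
              smul_mem' := fun c x hx => ?_ }, fun x => Iff.rfl⟩
    · show ‖ψ0 ((a + b : 𝓞 K) : K)‖ < 1
      have e : ((a + b : 𝓞 K) : K) = (a : K) + (b : K) := map_add _ _ _
      rw [e, map_add]
      exact (IsUltrametricDist.norm_add_le_max _ _).trans_lt (max_lt ha hb)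
    · show ‖ψ0 ((c * x : 𝓞 K) : K)‖ < 1
      have e : ((c * x : 𝓞 K) : K) = (c : K) * (x : K) := map_mul _ _ _
      rw [e, map_mul, norm_mul]
      have h1 : ‖ψ0 (c : K)‖ ≤ 1 := hK (ψ0 : K →+* PadicAlgCl l) c
      have h2 : ‖ψ0 (x : K)‖ < 1 := hx
      calc ‖ψ0 (c : K)‖ * ‖ψ0 (x : K)‖ ≤ 1 * ‖ψ0 (x : K)‖ :=
            mul_le_mul_of_nonneg_right h1 (norm_nonneg _)
        _ < 1 := by rw [one_mul]; exact h2
  have hP0p : P0.IsPrime := by
    refine Ideal.isPrime_iff.2 ⟨?_, ?_⟩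
    · rw [Ne, Ideal.eq_top_iff_one, hP0]
      simp
    · intro a b hab
      rw [hP0, hP0]
      rw [hP0] at hab
      have e : ((a * b : 𝓞 K) : K) = (a : K) * (b : K) := map_mul _ _ _
      rw [e, map_mul, norm_mul] at hab
      by_contra h
      push Not at h
      have := one_le_mul_of_one_le_of_one_le h.1 h.2
      linarith
  have hlP0 : (l : 𝓞 K) ∈ P0 := by
    rw [hP0]
    have e : ((l : 𝓞 K) : K) = (l : K) := map_natCast _ _
    rw [e, map_natCast, hnl]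
    exact inv_lt_one_of_one_lt₀ hl1
  obtain ⟨g0, hg0⟩ := trans_above hl (P := w.asIdeal) (Q := P0) hw hlP0
  obtain ⟨ψ, hψ⟩ : ∃ ψ : K →+* PadicAlgCl l, ∀ x : 𝓞 K, x ∈ w.asIdeal ↔ ‖ψ (x : K)‖ < 1 := by
    refine ⟨(ψ0 : K →+* PadicAlgCl l).comp (g0 : K →+* K), fun x => ?_⟩
    rw [hg0, hP0]
    rfl
  have hψ1 : ∀ x : 𝓞 K, x ∉ w.asIdeal → ‖ψ (x : K)‖ = 1 := by
    intro x hx
    rw [hψ] at hx
    exact le_antisymm (hK ψ x) (not_lt.1 hx)
  have hvl := val_l hsq hl.ne_zero w hw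
  have hlK : (l : K) ≠ 0 := Nat.cast_ne_zero.2 hl.ne_zero
  refine ⟨ψ, fun x m hx => ?_, fun F hF τ => ?_⟩
  · obtain ⟨y, hy⟩ : ∃ y : K, y = x * (l : K) ^ (-m) := ⟨_, rfl⟩
    have h1 : w.valuation K y = 1 := by
      rw [hy, map_mul, map_zpow₀, hx, hvl, ← WithZero.exp_zsmul, ← WithZero.exp_add]
      simp
    obtain ⟨a, b, ha, hb, hab⟩ := frac_unit w h1
    have h2 : ‖ψ y‖ = 1 := by
      have h3 := congrArg (fun z => ‖ψ z‖) hab
      simp only [map_mul, norm_mul] at h3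
      rw [hψ1 a ha, hψ1 b hb, mul_one] at h3
      exact h3
    have h3 : x = y * (l : K) ^ m := by
      rw [hy, mul_assoc, ← zpow_add₀ hlK]
      simp
    rw [h3, map_mul, norm_mul, h2, one_mul, map_zpow₀, map_natCast, norm_zpow, hnl, inv_zpow,
      zpow_neg]
  · -- the automorphism of `K` induced by `τ`
    have hτn : ∀ z : PadicAlgCl l, ‖τ z‖ = ‖z‖ := by
      intro z
      rw [← PadicAlgCl.spectralNorm_eq, ← PadicAlgCl.spectralNorm_eq]
      exact (spectralNorm_eq_of_equiv τ z).symm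
    obtain ⟨g, hg⟩ : ∃ g : K ≃ₐ[ℚ] K, ∀ x : K, τ (ψ x) = ψ (g x) := by
      letI : Algebra K (PadicAlgCl l) := ψ.toAlgebra
      haveI : IsScalarTower ℚ K (PadicAlgCl l) := IsScalarTower.of_algebraMap_eq (fun q => by
        show _ = ψ (algebraMap ℚ K q)
        rw [eq_ratCast, eq_ratCast, map_ratCast])
      obtain ⟨τ', hτ'⟩ : ∃ τ' : PadicAlgCl l ≃ₐ[ℚ] PadicAlgCl l, ∀ z, τ' z = τ z :=
        ⟨AlgEquiv.ofRingEquiv (f := (τ : PadicAlgCl l ≃+* PadicAlgCl l)) (fun q => by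
          rw [eq_ratCast]; exact map_ratCast _ _), fun z => rfl⟩
      refine ⟨τ'.restrictNormal K, fun x => ?_⟩
      have h := AlgEquiv.restrictNormal_commutes τ' K x
      rw [hτ'] at h
      exact h.symm
    have hgw : ∀ x : 𝓞 K, x ∈ w.asIdeal ↔ g • x ∈ w.asIdeal := by
      intro x
      rw [hψ, hψ]
      have e : ψ ((g • x : 𝓞 K) : K) = τ (ψ (x : K)) := (hg x).symm
      rw [e, hτn]
    -- `g` modulo `w`
    have hmax := w.isMaximal
    obtain ⟨n, hn⟩ : ∃ n : ℕ, ∀ x : 𝓞 K, g • x - x ^ (l ^ n) ∈ w.asIdeal := by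
      letI : Field (𝓞 K ⧸ w.asIdeal) := Ideal.Quotient.field w.asIdeal
      haveI : Finite (𝓞 K ⧸ w.asIdeal) := Ideal.finiteQuotientOfFreeOfNeBot w.asIdeal w.ne_bot
      have hp0 : ((l : ℕ) : 𝓞 K ⧸ w.asIdeal) = 0 := by
        have h2 := Ideal.Quotient.eq_zero_iff_mem.mpr (show (l : 𝓞 K) ∈ w.asIdeal from hw)
        rwa [map_natCast] at h2
      haveI : CharP (𝓞 K ⧸ w.asIdeal) l := (CharP.charP_iff_prime_eq_zero Fact.out).mpr hp0
      letI : Algebra (ZMod l) (𝓞 K ⧸ w.asIdeal) := ZMod.algebra _ l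
      obtain ⟨gb, hgb⟩ : ∃ gb : (𝓞 K ⧸ w.asIdeal) →+* (𝓞 K ⧸ w.asIdeal), ∀ x : 𝓞 K,
          gb (Ideal.Quotient.mk w.asIdeal x) = Ideal.Quotient.mk w.asIdeal (g • x) := by
        refine ⟨Ideal.quotientMap w.asIdeal (MulSemiringAction.toRingHom (K ≃ₐ[ℚ] K) (𝓞 K) g)
          (fun x hx => (hgw x).1 hx), fun x => ?_⟩
        rw [Ideal.quotientMap_mk]
        rfl
      obtain ⟨gA, hgA⟩ : ∃ gA : (𝓞 K ⧸ w.asIdeal) →ₐ[ZMod l] (𝓞 K ⧸ w.asIdeal), ∀ z,
          gA z = gb z := by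
        refine ⟨{ gb with commutes' := fun r => ?_ }, fun z => rfl⟩
        have h5 : gb.comp (algebraMap (ZMod l) (𝓞 K ⧸ w.asIdeal)) =
            algebraMap (ZMod l) (𝓞 K ⧸ w.asIdeal) := RingHom.ext_zmod _ _
        exact congrArg (fun f => f r) h5
      obtain ⟨n, hn⟩ := (FiniteField.bijective_frobeniusAlgHom_pow (ZMod l)
        (𝓞 K ⧸ w.asIdeal)).2 gA
      refine ⟨n, fun x => ?_⟩
      rw [← Ideal.Quotient.eq_zero_iff_mem, map_sub, ← hgb, ← hgA, ← hn, map_pow, sub_eq_zero]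
      show ((FiniteField.frobeniusAlgHom (ZMod l) (𝓞 K ⧸ w.asIdeal)) ^ (n : ℕ)) _ = _
      rw [AlgHom.coe_pow, FiniteField.coe_frobeniusAlgHom, pow_iterate, ZMod.card]
    have hstep : ∀ m : ℕ, ∀ x : 𝓞 K, (F ^ m) • x - x ^ (l ^ m) ∈ w.asIdeal := by
      intro m
      induction m with
      | zero => intro x; simp
      | succ m ih =>
        intro x
        have h1 : F • x - x ^ l ∈ w.asIdeal := hF x (F • x) rfl
        have h2 := ih (F • x)
        have h3 : (F • x) ^ l ^ m - (x ^ l) ^ l ^ m ∈ w.asIdeal :=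
          Ideal.mem_of_dvd _ (sub_dvd_pow_sub_pow _ _ _) h1
        have h4 : (F ^ (m + 1)) • x = (F ^ m) • (F • x) := by rw [pow_succ, mul_smul]
        have h5 : x ^ l ^ (m + 1) = (x ^ l) ^ l ^ m := by rw [← pow_mul, pow_succ', ]
        rw [h4, h5]
        have h6 := w.asIdeal.add_mem h2 h3
        simpa using h6
    have h7 : g * (F ^ n)⁻¹ = 1 := by
      refine inertia_triv hl hsq w hw _ fun x => ?_
      have h8 := w.asIdeal.sub_mem (hn ((F ^ n)⁻¹ • x)) (hstep n ((F ^ n)⁻¹ • x))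
      rw [smul_inv_smul] at h8
      have h9 : g • (F ^ n)⁻¹ • x - ((F ^ n)⁻¹ • x) ^ l ^ n - (x - ((F ^ n)⁻¹ • x) ^ l ^ n) =
          (g * (F ^ n)⁻¹) • x - x := by
        rw [mul_smul]
        ring
      rwa [h9] at h8
    have h8 : g = F ^ n := by
      rw [mul_inv_eq_one] at h7
      exact h7
    refine ⟨n, fun x => ?_⟩
    rw [hg, h8]

end Pool.Agent.Q151.ESG
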