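import Pool.Agent.Q161.ESG.Stm5

/-!
# Project ESG (helper161): embeddings and roots of the twist (helper151)
-/

set_option autoImplicit false
set_option linter.all false

namespace Pool.Agent.Q151.ESG

open Polynomial NumberField
open Pool.Agent.Q161.ESG
open Pool.Agent.Y723.HJ (CR OddM HF nm cl val del)
open Pool.Agent.Q51.EL (Setup)

/-- scaling of the roots and composition -/
theorem scale_eq {E : Type} [Field E] (p : E[X]) {s : E} (hs : s ≠ 0) :
    p.scaleRoots s = C (s ^ p.natDegree) * p.comp (C s⁻¹ * X) := by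
  ext i
  rw [coeff_scaleRoots, coeff_C_mul, comp_C_mul_X_coeff]
  rcases le_or_gt i p.natDegree with h | h
  · obtain ⟨j, hj⟩ := Nat.exists_eq_add_of_le h
    rw [hj, Nat.add_sub_cancel_left, pow_add, inv_pow]
    field_simp
  · rw [coeff_eq_zero_of_natDegree_lt h]
    simp

theorem sep_scale {E : Type} [Field E] (p : E[X]) {s : E} (hs : s ≠ 0) (hp : p.Separable) :
    (p.scaleRoots s).Separable := by
  obtain ⟨a, b, hab⟩ := hp
  have h1 : (p.comp (C s⁻¹ * X)).Separable := by
    refine ⟨a.comp (C s⁻¹ * X), C s * b.comp (C s⁻¹ * X), ?_⟩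
    rw [derivative_comp, derivative_C_mul, derivative_X, mul_one]
    have h2 : C s * b.comp (C s⁻¹ * X) * (C s⁻¹ * p.derivative.comp (C s⁻¹ * X)) =
        b.comp (C s⁻¹ * X) * p.derivative.comp (C s⁻¹ * X) := by
      calc _ = C (s * s⁻¹) * (b.comp (C s⁻¹ * X) * p.derivative.comp (C s⁻¹ * X)) := by
            rw [C_mul]; ring
        _ = _ := by rw [mul_inv_cancel₀ hs, C_1, one_mul]
    rw [h2, ← mul_comp, ← mul_comp, ← add_comp, hab, one_comp]
  rw [scale_eq p hs]
  exact h1.unit_mul (isUnit_C.2 (pow_ne_zero _ hs).isUnit)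

theorem pol_twist (H : HP) (D : ℤ) (E : Type) [Field E] :
    pol (H.twist D) E = (pol H E).scaleRoots (D : E) := by
  unfold pol
  show (H.pol.scaleRoots D).map (Int.castRingHom E) = _
  rw [map_scaleRoots]
  · rfl
  · rw [H.monic.leadingCoeff, map_one]
    exact one_ne_zero

theorem pol_monic (H : HP) (E : Type) [Field E] : (pol H E).Monic := H.monic.map _

theorem pol_ne (H : HP) (E : Type) [Field E] : pol H E ≠ 0 := (pol_monic H E).ne_zero

theorem eval_twist (H : HP) (D : ℤ) (E : Type) [Field E] (x : E) :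
    (pol (H.twist D) E).eval ((D : E) * x) = (D : E) ^ (pol H E).natDegree * (pol H E).eval x := by
  rw [pol_twist]
  have h := scaleRoots_eval₂_mul (p := pol H E) (RingHom.id E) x (D : E)
  rw [← eval₂_id, ← eval₂_id]
  exact h

theorem root_twist (H : HP) {D : ℤ} {E : Type} [Field E] (hD : (D : E) ≠ 0) (x : E) :
    (D : E) * x ∈ (pol (H.twist D) E).roots ↔ x ∈ (pol H E).roots := by
  rw [mem_roots (pol_ne _ _), mem_roots (pol_ne _ _), IsRoot, IsRoot, eval_twist, mul_eq_zero]
  exact ⟨fun h => h.resolve_left (pow_ne_zero _ hD), Or.inr⟩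

section
variable {H : HP} {L : Type} [Field L] [NumberField L] {θ : L} (hS : Setup H.pol L θ)

include hS

theorem minpoly_eq : minpoly ℚ θ = H.pol.map (Int.castRingHom ℚ) := by
  refine (minpoly.eq_of_irreducible_of_monic hS.irr ?_ (H.monic.map _)).symm
  have h := aeval_map_algebraMap ℚ θ H.pol
  rw [hS.root] at h
  exact h

theorem sep_rat : (H.pol.map (Int.castRingHom ℚ)).Separable := hS.irr.separable

theorem pol_sep (E : Type) [Field E] [CharZero E] : (pol H E).Separable := by
  have h := (sep_rat hS).map (f := algebraMap ℚ E)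
  rw [Polynomial.map_map] at h
  have e : (algebraMap ℚ E).comp (Int.castRingHom ℚ) = Int.castRingHom E := RingHom.ext_int _ _
  rw [e] at h
  exact h

theorem hf_twist {D : ℤ} (hD : D ≠ 0) (E : Type) [Field E] [CharZero E] :
    HF (pol (H.twist D) E) where
  monic := pol_monic _ _
  odd := by
    unfold pol
    rw [(H.twist D).monic.natDegree_map]
    exact (H.twist D).odd
  sep := by
    rw [pol_twist]
    exact sep_scale _ (by exact_mod_cast hD) (pol_sep hS E)
  two := two_ne_zero

theorem theta_top : Algebra.adjoin ℚ {θ} = ⊤ := by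
  have h1 : IsIntegral ℚ θ := Algebra.IsIntegral.isIntegral θ
  have h2 : IntermediateField.adjoin ℚ {θ} = ⊤ := by
    apply IntermediateField.eq_of_le_of_finrank_eq le_top
    rw [IntermediateField.adjoin.finrank h1, minpoly_eq hS, IntermediateField.finrank_top',
      hS.deg, H.monic.natDegree_map]
  have h3 := IntermediateField.adjoin_simple_toSubalgebra_of_isAlgebraic (h1.isAlgebraic)
  rw [h2] at h3
  exact h3.symm

theorem theta_surj (x : L) : ∃ d : ℚ[X], aeval θ d = x := by
  have h : x ∈ Algebra.adjoin ℚ {θ} := by rw [theta_top hS]; trivial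
  rw [Algebra.adjoin_singleton_eq_range_aeval] at h
  exact h

theorem emb_ext {E : Type} [Field E] [Algebra ℚ E] {e e' : L →ₐ[ℚ] E} (h : e θ = e' θ) :
    e = e' := by
  apply AlgHom.ext
  intro x
  obtain ⟨d, hd⟩ := theta_surj hS x
  rw [← hd, ← Polynomial.aeval_algHom_apply, ← Polynomial.aeval_algHom_apply, h]

theorem emb_root {E : Type} [Field E] [CharZero E] [Algebra ℚ E] (e : L →ₐ[ℚ] E) :
    e θ ∈ (pol H E).roots := by
  rw [mem_roots (pol_ne _ _), IsRoot]
  unfold pol
  rw [← eval₂_eq_eval_map]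
  have h := congrArg e hS.root
  rw [map_zero, aeval_def] at h
  have h' : (e : L →+* E) (eval₂ (algebraMap ℤ L) θ H.pol) = 0 := h
  rw [hom_eval₂] at h'
  have e1 : (e : L →+* E).comp (algebraMap ℤ L) = Int.castRingHom E := RingHom.ext_int _ _
  rw [← e1]
  exact h'

theorem exists_emb {E : Type} [Field E] [CharZero E] [Algebra ℚ E] {x : E}
    (hx : x ∈ (pol H E).roots) : ∃ e : L →ₐ[ℚ] E, e θ = x := by
  have h1 : aeval x (minpoly ℚ θ) = 0 := by
    rw [minpoly_eq hS]
    rw [mem_roots (pol_ne _ _), IsRoot] at hx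
    unfold pol at hx
    rw [aeval_def, eval₂_map]
    have e1 : (algebraMap ℚ E).comp (Int.castRingHom ℚ) = Int.castRingHom E := RingHom.ext_int _ _
    rw [e1, eval₂_eq_eval_map]
    exact hx
  have h2 : IsIntegral ℚ θ := Algebra.IsIntegral.isIntegral θ
  obtain ⟨pb, hpb⟩ : ∃ pb : PowerBasis ℚ L, pb.gen = θ := by
    refine ⟨PowerBasis.ofAdjoinEqTop h2 (theta_top hS), PowerBasis.ofAdjoinEqTop_gen _ _⟩
  subst hpb
  exact ⟨pb.lift x h1, pb.lift_gen x h1⟩

/-- the roots of the twist are the `D e(θ)` -/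
theorem mem_twist {D : ℤ} (hD : D ≠ 0) {E : Type} [Field E] [CharZero E] [Algebra ℚ E] (x : E) :
    x ∈ (pol (H.twist D) E).roots ↔ ∃ e : L →ₐ[ℚ] E, (D : E) * e θ = x := by
  have hDE : (D : E) ≠ 0 := by exact_mod_cast hD
  constructor
  · intro h
    have h1 : (D : E) * (x / D) = x := by field_simp
    rw [← h1, root_twist H hDE] at h
    obtain ⟨e, he⟩ := exists_emb hS h
    exact ⟨e, by rw [he, h1]⟩
  · rintro ⟨e, rfl⟩
    exact (root_twist H hDE _).2 (emb_root hS e)

theorem twist_inj {D : ℤ} (hD : D ≠ 0) {E : Type} [Field E] [CharZero E] [Algebra ℚ E] :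
    Function.Injective (fun e : L →ₐ[ℚ] E => (D : E) * e θ) := by
  have hDE : (D : E) ≠ 0 := by exact_mod_cast hD
  intro e e' h
  exact emb_ext hS (mul_left_cancel₀ hDE h)

theorem twist_toFinset {D : ℤ} (hD : D ≠ 0) {E : Type} [Field E] [DecidableEq E] [CharZero E]
    [Algebra ℚ E] : (pol (H.twist D) E).roots.toFinset =
      Finset.univ.image (fun e : L →ₐ[ℚ] E => (D : E) * e θ) := by
  ext x
  rw [Multiset.mem_toFinset, mem_twist hS hD]
  simp

end

end Pool.Agent.Q151.ESG
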