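import Pool.Agent.Q151.ESG.Base

/-!
# Project ESG (helper161), job KIJ (helper151)
-/

set_option autoImplicit false
set_option linter.all false

namespace Pool.Agent.Q151.ESG

open Polynomial NumberField
open Pool.Agent.Q161.ESG
open Pool.Agent.Y723.HJ (CR OddM HF nm cl val del)
open Pool.Agent.Q51.EL (Setup)

theorem pm_prod {ι E : Type} [Field E] (S : Finset ι) (s : ι → E)
    (hs : ∀ i ∈ S, s i = 1 ∨ s i = -1) : ∏ i ∈ S, s i = 1 ∨ ∏ i ∈ S, s i = -1 := by
  classical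
  induction S using Finset.induction_on with
  | empty => left; simp
  | insert a S ha ih =>
    rw [Finset.prod_insert ha]
    rcases hs a (Finset.mem_insert_self _ _) with h1 | h1 <;>
      rcases ih (fun i hi => hs i (Finset.mem_insert_of_mem hi)) with h2 | h2 <;>
      rw [h1, h2] <;> simp

theorem card_odd {H : HP} {L : Type} [Field L] [NumberField L] {θ : L} (hS : Setup H.pol L θ) :
    Odd (Fintype.card (L →ₐ[ℚ] QB)) := by
  rw [AlgHom.card, hS.deg]
  exact H.odd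

theorem kij (hSG : S_SGP) : S_KIJ := by
  intro H L _ _ θ hS D _ hD f f' γ γ' δ δ' hf hf' hK hK' hsqr
  classical
  obtain ⟨p1, p2, p3, p4, p5, p6⟩ := hSG (H.twist D) QB
  obtain ⟨e1⟩ : Nonempty (L →ₐ[ℚ] QB) := ⟨IsAlgClosed.lift⟩
  have hδ : δ ≠ 0 := by
    rintro rfl
    have := hK.sq e1
    rw [map_zero] at this
    exact hK.ne e1 (pow_eq_zero_iff two_ne_zero |>.1 this)
  have hδ' : δ' ≠ 0 := by
    rintro rfl
    have := hK'.sq e1
    rw [map_zero] at this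
    exact hK'.ne e1 (pow_eq_zero_iff two_ne_zero |>.1 this)
  obtain ⟨η, hη⟩ := hsqr
  rw [← pow_two] at hη
  have hη0 : η ≠ 0 := by
    rintro rfl
    exact mul_ne_zero hδ hδ' (by rw [hη]; ring)
  have hpm : ∀ η : L, η ≠ 0 → δ * δ' = η ^ 2 → ∀ e : L →ₐ[ℚ] QB,
      γ e * γ' e / e η = 1 ∨ γ e * γ' e / e η = -1 := by
    intro η hη0 hη e
    have h1 : e η ≠ 0 := fun h => hη0 ((map_eq_zero e).1 h)
    have h2 : (γ e * γ' e) ^ 2 = e η ^ 2 := by
      rw [mul_pow, hK.sq, hK'.sq, ← map_mul, hη, map_pow]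
    rcases sq_eq_sq_iff_eq_or_eq_neg.1 h2 with h3 | h3
    · left
      rw [h3, div_self h1]
    · right
      rw [h3, neg_div, div_self h1]
  obtain ⟨η, hη0, hη, hprod⟩ : ∃ η : L, η ≠ 0 ∧ δ * δ' = η ^ 2 ∧
      ∏ e : L →ₐ[ℚ] QB, (γ e * γ' e / e η) = 1 := by
    rcases pm_prod Finset.univ (fun e : L →ₐ[ℚ] QB => γ e * γ' e / e η)
      (fun e _ => hpm η hη0 hη e) with h1 | h1
    · exact ⟨η, hη0, hη, h1⟩
    · refine ⟨-η, neg_ne_zero.2 hη0, by rw [hη]; ring, ?_⟩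
      have h2 : ∀ e : L →ₐ[ℚ] QB, γ e * γ' e / e (-η) = -(γ e * γ' e / e η) := by
        intro e
        rw [map_neg, div_neg]
      simp only [h2]
      rw [Finset.prod_neg, h1, Finset.card_univ, (card_odd hS).neg_one_pow]
      ring
  have hinj := twist_inj hS hD (E := QB)
  obtain ⟨s, hs⟩ : ∃ s : QB → QB, ∀ e : L →ₐ[ℚ] QB, s ((D : QB) * e θ) = γ e * γ' e / e η := by
    refine ⟨fun x => if h : ∃ e : L →ₐ[ℚ] QB, (D : QB) * e θ = x then
      γ h.choose * γ' h.choose / h.choose η else 1, fun e => ?_⟩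
    have h : ∃ e' : L →ₐ[ℚ] QB, (D : QB) * e' θ = (D : QB) * e θ := ⟨e, rfl⟩
    simp only [dif_pos h]
    rw [hinj h.choose_spec]
  have hmem : ∀ e : L →ₐ[ℚ] QB, (D : QB) * e θ ∈ (pol (H.twist D) QB).roots := fun e =>
    (mem_twist hS hD _).2 ⟨e, rfl⟩
  obtain ⟨T, hT, hTs⟩ := p4 s (by
      intro x hx
      obtain ⟨e, rfl⟩ := (mem_twist hS hD _).1 hx
      rw [hs]
      exact hpm η hη0 hη e) (by
      have h1 := twist_toFinset hS hD (E := QB)
      rw [h1, Finset.prod_image (fun a _ b _ h => hinj h)]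
      simp only [hs]
      exact hprod)
  refine ⟨T, hT, fun σ => ?_⟩
  have hneg : f σ - f' σ = f σ + f' σ := by
    have := hf' σ
    rw [sub_eq_add_neg, neg_eq_of_add_eq_zero_left this]
  have hnegT : act (H.twist D) σ T - T = act (H.twist D) σ T + T := by
    rw [sub_eq_add_neg, neg_eq_of_add_eq_zero_left hT]
  have hTσ : act (H.twist D) σ T + act (H.twist D) σ T = 0 := by
    rw [← act_add, hT, act_zero]
  have dbl : ∀ {P Q : Jac (H.twist D) QB}, P + P = 0 → Q + Q = 0 → (P + Q) + (P + Q) = 0 := by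
    intro P Q hP hQ
    have e : (P + Q) + (P + Q) = (P + P) + (Q + Q) := by abel
    rw [e, hP, hQ, add_zero]
  rw [hneg, hnegT]
  have hU : (f σ + f' σ) + (act (H.twist D) σ T + T) = 0 := by
    apply p3 _ (dbl (dbl (hf σ) (hf' σ)) (dbl hTσ hT))
    intro x hx
    obtain ⟨e, rfl⟩ := (mem_twist hS hD _).1 hx
    rw [p2 _ _ (dbl (hf σ) (hf' σ)) (dbl hTσ hT) _ (hmem e), p2 _ _ (hf σ) (hf' σ) _ (hmem e),
      p2 _ _ hTσ hT _ (hmem e)]
    obtain ⟨e', he'⟩ : ∃ e', e' = σ.symm.toAlgHom.comp e := ⟨_, rfl⟩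
    have hσe : ∀ x : L, σ (e' x) = e x := by
      intro x
      rw [he']
      exact σ.apply_symm_apply _
    have h1 : sg (H.twist D) (act (H.twist D) σ T) ((D : QB) * e θ) =
        σ (sg (H.twist D) T ((D : QB) * e' θ)) := by
      have h2 := p6 QB (σ : QB →+* QB) T hT _ (hmem e')
      have h3 : (σ : QB →+* QB) ((D : QB) * e' θ) = (D : QB) * e θ := by
        show σ ((D : QB) * e' θ) = _
        rw [map_mul, map_intCast, hσe]
      rw [h3] at h2
      exact h2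
    rw [h1, hTs _ (hmem e'), hTs _ (hmem e), hs, hs]
    have g1 := hK.gal σ e
    have g2 := hK'.gal σ e
    rw [← he'] at g1 g2
    rw [map_div₀, map_mul, g1, g2, hσe]
    have h5 : e η ≠ 0 := fun h => hη0 ((map_eq_zero e).1 h)
    have h6 : (γ e * γ' e) ^ 2 = e η ^ 2 := by
      rw [mul_pow, hK.sq, hK'.sq, ← map_mul, hη, map_pow]
    have q1 : sg (H.twist D) (f σ) ((D : QB) * e θ) ^ 2 = 1 := by
      rcases p1 _ (hf σ) _ (hmem e) with h | h <;> rw [h] <;> ring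
    have q2 : sg (H.twist D) (f' σ) ((D : QB) * e θ) ^ 2 = 1 := by
      rcases p1 _ (hf' σ) _ (hmem e) with h | h <;> rw [h] <;> ring
    obtain ⟨a, ha⟩ : ∃ a, a = sg (H.twist D) (f σ) ((D : QB) * e θ) := ⟨_, rfl⟩
    obtain ⟨b, hb⟩ : ∃ b, b = sg (H.twist D) (f' σ) ((D : QB) * e θ) := ⟨_, rfl⟩
    rw [← ha, ← hb]
    rw [← ha] at q1
    rw [← hb] at q2
    calc a * b * (a * γ e * (b * γ' e) / e η * (γ e * γ' e / e η)) =
        a ^ 2 * b ^ 2 * ((γ e * γ' e) ^ 2 / (e η) ^ 2) := by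
          field_simp
      _ = 1 := by rw [q1, q2, h6, div_self (pow_ne_zero 2 h5)]; ring
  have h8 := neg_eq_of_add_eq_zero_left (dbl hTσ hT)
  rw [eq_neg_of_add_eq_zero_left hU, h8]

end Pool.Agent.Q151.ESG
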