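import Pool.Agent.Q151.ESG.Base

/-!
# Project ESG (helper161), job SHAJ (helper151)
-/

set_option autoImplicit false
set_option linter.all false

namespace Pool.Agent.Q151.ESG

open Polynomial NumberField
open Pool.Agent.Q161.ESG
open Pool.Agent.Y723.HJ (CR OddM HF nm cl val del)
open Pool.Agent.Q51.EL (Setup)

theorem shaj (hKD : S_KDJ) (hKI : S_KIJ) (hKL : S_KLJ) : S_SHAJ := by
  intro H L _ _ θ hS D hD
  haveI : HF (pol (H.twist D) QB) := hf_twist hS hD QB
  have hex : ∀ x : Sel2J (H.twist D), ∃ (γ : (L →ₐ[ℚ] QB) → QB) (δ : L),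
      KDJ H D θ (Quotient.out x : selJ (H.twist D)).1 γ δ := by
    intro x
    exact hKD H L θ hS D hD _ (Quotient.out x).2.1.1 (Quotient.out x).2.2
  choose γ δ hγ using hex
  have htor : ∀ (x : Sel2J (H.twist D)) (σ : GQ), (Quotient.out x : selJ (H.twist D)).1 σ +
      (Quotient.out x : selJ (H.twist D)).1 σ = 0 := fun x => (Quotient.out x).2.2
  refine ⟨δ, fun x => ⟨?_, ?_⟩, fun x y hxy => ?_⟩
  · intro h0
    obtain ⟨e⟩ : Nonempty (L →ₐ[ℚ] QB) := ⟨IsAlgClosed.lift⟩
    have h1 := (hγ x).sq e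
    rw [h0, map_zero] at h1
    exact (hγ x).ne e (pow_eq_zero_iff two_ne_zero |>.1 h1)
  · obtain ⟨d, hd⟩ := theta_surj hS (δ x)
    refine ⟨d, hd, fun p _ => ?_⟩
    exact hKL H L θ hS D hD _ _ _ (htor x) (hγ x) p ((Quotient.out x).2.1.2.1 p) d hd
  · obtain ⟨T, hT, h1⟩ := hKI H L θ hS D hD _ _ _ _ _ _ (htor y) (htor x) (hγ y) (hγ x)
      (by rwa [mul_comm])
    have h2 : (QuotientAddGroup.mk (Quotient.out x : selJ (H.twist D)) : Sel2J (H.twist D)) =
        QuotientAddGroup.mk (Quotient.out y : selJ (H.twist D)) := by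
      rw [QuotientAddGroup.eq, AddSubgroup.mem_addSubgroupOf]
      refine ⟨T, hT, fun σ => ?_⟩
      have h5 : - (Quotient.out x : selJ (H.twist D)).1 σ +
          (Quotient.out y : selJ (H.twist D)).1 σ =
          (Quotient.out y : selJ (H.twist D)).1 σ - (Quotient.out x : selJ (H.twist D)).1 σ := by
        abel
      exact h5.trans (h1 σ)
    have h3 : (QuotientAddGroup.mk (Quotient.out x : selJ (H.twist D)) : Sel2J (H.twist D)) = x :=
      Quotient.out_eq x
    have h4 : (QuotientAddGroup.mk (Quotient.out y : selJ (H.twist D)) : Sel2J (H.twist D)) = y :=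
      Quotient.out_eq y
    rw [← h3, ← h4, h2]

end Pool.Agent.Q151.ESG
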