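import Pool.Agent.Q151.ESG.Base

/-!
# Project ESG (helper161), job SYMJ (helper151)
-/

set_option autoImplicit false
set_option linter.all false

namespace Pool.Agent.Q151.ESG

open Polynomial NumberField
open Pool.Agent.Q161.ESG
open Pool.Agent.Y723.HJ (CR OddM HF nm cl val del)
open Pool.Agent.Q51.EL (Setup)

open scoped Classical

/-- the zeros of `h` -/
noncomputable def RR (H : HP) : Finset QB := (pol H QB).roots.toFinset

/-- the zeros with sign `-1` -/
noncomputable def NN (H : HP) [HF (pol H QB)] (T : Jac H QB) : Finset QB := (RR H).filter (fun x => sg H T x = -1)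

theorem mem_RR {H : HP} {x : QB} : x ∈ RR H ↔ x ∈ (pol H QB).roots := Multiset.mem_toFinset

theorem one_ne : (1 : QB) ≠ -1 := by
  intro h
  have : (2 : QB) = 0 := by linear_combination h
  exact two_ne_zero this

theorem act_RR {H : HP} (σ : GQ) {x : QB} (hx : x ∈ RR H) : σ x ∈ RR H := by
  rw [mem_RR, mem_roots (pol_ne _ _), IsRoot] at hx ⊢
  have h1 := congrArg (σ : QB →+* QB) hx
  rw [map_zero, ← Polynomial.eval_map_apply, pol_map] at h1
  exact h1

section

variable {H : HP} [HF (pol H QB)] (hSG : S_SGP)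

include hSG

theorem dbl {P Q : Jac H QB} (hP : P + P = 0) (hQ : Q + Q = 0) : (P + Q) + (P + Q) = 0 := by
  have e : (P + Q) + (P + Q) = (P + P) + (Q + Q) := by abel
  rw [e, hP, hQ, add_zero]

theorem NN_add {S T : Jac H QB} (hS : S + S = 0) (hT : T + T = 0) :
    NN H (S + T) = symmDiff (NN H S) (NN H T) := by
  obtain ⟨p1, p2, p3, p4, p5, p6⟩ := hSG H QB
  ext x
  rw [Finset.mem_symmDiff]
  unfold NN
  rw [Finset.mem_filter, Finset.mem_filter, Finset.mem_filter]
  by_cases hx : x ∈ RR H
  · rw [p2 S T hS hT x (mem_RR.1 hx)]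
    have h1 := one_ne
    rcases p1 S hS x (mem_RR.1 hx) with a | a <;> rcases p1 T hT x (mem_RR.1 hx) with b | b <;>
      rw [a, b] <;> simp [hx, h1, h1.symm]
  · simp [hx]

theorem NN_act {T : Jac H QB} (hT : T + T = 0) (σ : GQ) (x : QB) :
    σ x ∈ NN H (act H σ T) ↔ x ∈ NN H T := by
  obtain ⟨p1, p2, p3, p4, p5, p6⟩ := hSG H QB
  unfold NN
  rw [Finset.mem_filter, Finset.mem_filter]
  have h0 : σ x ∈ RR H ↔ x ∈ RR H := by
    constructor
    · intro h
      have h1 := act_RR σ.symm h
      rwa [AlgEquiv.symm_apply_apply] at h1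
    · exact act_RR σ
  rw [h0]
  refine and_congr_right fun hx => ?_
  have h2 : sg H (act H σ T) (σ x) = σ (sg H T x) := p6 QB (σ : QB →+* QB) T hT _ (mem_RR.1 hx)
  rw [h2]
  constructor
  · intro h
    have h3 := congrArg σ.symm h
    rw [AlgEquiv.symm_apply_apply, map_neg, map_one] at h3
    exact h3
  · intro h
    rw [h, map_neg, map_one]

theorem NN_zero {T : Jac H QB} (hT : T + T = 0) (h : NN H T = ∅) : T = 0 := by
  obtain ⟨p1, p2, p3, p4, p5, p6⟩ := hSG H QB
  refine p3 T hT fun x hx => ?_
  rcases p1 T hT x hx with h1 | h1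
  · exact h1
  · exfalso
    have : x ∈ NN H T := Finset.mem_filter.2 ⟨mem_RR.2 hx, h1⟩
    rw [h] at this
    exact absurd this (Finset.notMem_empty _)

theorem NN_even {T : Jac H QB} (hT : T + T = 0) : Even (NN H T).card := by
  obtain ⟨p1, p2, p3, p4, p5, p6⟩ := hSG H QB
  have h1 := p5 T hT
  have h2 : ∏ x ∈ RR H, sg H T x = (-1) ^ (NN H T).card := by
    have h3 : ∏ x ∈ RR H, sg H T x = ∏ x ∈ RR H, (if sg H T x = -1 then -1 else 1) := by
      refine Finset.prod_congr rfl fun x hx => ?_
      rcases p1 T hT x (mem_RR.1 hx) with h4 | h4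
      · rw [h4, if_neg one_ne]
      · rw [h4, if_pos rfl]
    rw [h3, Finset.prod_ite]
    simp [NN]
  have h4 : ((-1 : QB)) ^ (NN H T).card = 1 := by rw [← h2]; exact h1
  rcases Nat.even_or_odd (NN H T).card with h | h
  · exact h
  · rw [h.neg_one_pow] at h4
    exact absurd h4.symm one_ne

/-- a subgroup which contains all pairs -/
theorem all_pairs (W : AddSubgroup (Jac H QB)) (hW2 : ∀ P ∈ W, P + P = 0)
    (hp : ∀ x ∈ RR H, ∀ y ∈ RR H, x ≠ y → ∃ P ∈ W, NN H P = {x, y}) (P : Jac H QB)
    (hP : P + P = 0) : P ∈ W := by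
  obtain ⟨n, hn⟩ : ∃ n, n = (NN H P).card := ⟨_, rfl⟩
  induction n using Nat.strong_induction_on generalizing P with
  | _ n ih =>
    rcases Finset.eq_empty_or_nonempty (NN H P) with h0 | h0
    · rw [NN_zero hSG hP h0]
      exact W.zero_mem
    · have h1 := NN_even hSG hP
      have h2 : 1 < (NN H P).card := by
        have h3 := Finset.card_pos.2 h0
        obtain ⟨k, hk⟩ := h1
        omega
      obtain ⟨x, hx, y, hy, hxy⟩ := Finset.one_lt_card.1 h2
      obtain ⟨Q, hQW, hQ⟩ := hp x (Finset.mem_filter.1 hx).1 y (Finset.mem_filter.1 hy).1 hxy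
      have hQ2 := hW2 Q hQW
      have h4 : NN H (P + Q) = ((NN H P).erase x).erase y := by
        rw [NN_add hSG hP hQ2, hQ]
        ext z
        rw [Finset.mem_symmDiff, Finset.mem_erase, Finset.mem_erase, Finset.mem_insert,
          Finset.mem_singleton]
        constructor
        · rintro (⟨a, b⟩ | ⟨a, b⟩)
          · push Not at b
            exact ⟨b.2, b.1, a⟩
          · rcases a with rfl | rfl
            · exact absurd hx b
            · exact absurd hy b
        · rintro ⟨a, b, c⟩
          left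
          exact ⟨c, by push Not; exact ⟨b, a⟩⟩
      have h5 : (NN H (P + Q)).card < n := by
        rw [h4, hn]
        exact lt_of_le_of_lt (Finset.card_le_card (Finset.erase_subset _ _))
          (Finset.card_erase_lt_of_mem hx)
      have h6 := ih _ h5 (P + Q) (dbl hSG hP hQ2) rfl
      have h7 : P = (P + Q) - Q := by abel
      rw [h7]
      exact W.sub_mem h6 hQW

end

theorem rat_map (H : HP) : (H.pol.map (Int.castRingHom ℚ)).map (algebraMap ℚ QB) = pol H QB := by
  unfold pol
  rw [Polynomial.map_map]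
  congr 1

theorem RR_rootSet (H : HP) (x : QB) :
    x ∈ (H.pol.map (Int.castRingHom ℚ)).rootSet QB ↔ x ∈ RR H := by
  rw [rootSet_def, Finset.mem_coe, Multiset.mem_toFinset, aroots_def, rat_map, mem_RR]

theorem RR_card {H : HP} (hi : Irreducible (H.pol.map (Int.castRingHom ℚ))) :
    (RR H).card = H.pol.natDegree := by
  have h1 := card_rootSet_eq_natDegree (K := QB) hi.separable (IsAlgClosed.splits _)
  rw [H.monic.natDegree_map] at h1
  rw [← h1, ← Fintype.card_coe]
  exact Fintype.card_congr (Equiv.subtypeEquivRight fun x => (RR_rootSet H x).symm)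

/-- transitivity -/
theorem trans_RR {H : HP} (hi : Irreducible (H.pol.map (Int.castRingHom ℚ))) {x y : QB}
    (hx : x ∈ RR H) (hy : y ∈ RR H) : ∃ σ : GQ, σ x = y := by
  rw [← isConjRoot_iff_exists_algEquiv]
  have h1 := minpoly.eq_of_irreducible hi (mem_rootSet.1 ((RR_rootSet H x).2 hx)).2
  have h2 := minpoly.eq_of_irreducible hi (mem_rootSet.1 ((RR_rootSet H y).2 hy)).2
  show minpoly ℚ y = minpoly ℚ x
  rw [← h1, ← h2]

/-- the full symmetric group -/
theorem full_RR {H : HP} (hi : Irreducible (H.pol.map (Int.castRingHom ℚ)))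
    (hc : Nat.card (H.pol.map (Int.castRingHom ℚ)).Gal = H.pol.natDegree.factorial)
    (π : Equiv.Perm ((H.pol.map (Int.castRingHom ℚ)).rootSet QB)) :
    ∃ σ : GQ, ∀ x : (H.pol.map (Int.castRingHom ℚ)).rootSet QB, σ x = π x := by
  haveI : Fact (((H.pol.map (Int.castRingHom ℚ)).map (algebraMap ℚ QB)).Splits) :=
    ⟨IsAlgClosed.splits _⟩
  have h1 := Polynomial.Gal.galActionHom_injective (H.pol.map (Int.castRingHom ℚ)) QB
  have h2 := card_rootSet_eq_natDegree (K := QB) hi.separable (IsAlgClosed.splits _)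
  have h3 : Nat.card (H.pol.map (Int.castRingHom ℚ)).Gal =
      Nat.card (Equiv.Perm ((H.pol.map (Int.castRingHom ℚ)).rootSet QB)) := by
    rw [hc, Nat.card_eq_fintype_card, Fintype.card_perm, h2, H.monic.natDegree_map]
  haveI : Finite (H.pol.map (Int.castRingHom ℚ)).Gal := Finite.of_injective _ h1
  have h4 : Function.Bijective (Polynomial.Gal.galActionHom (H.pol.map (Int.castRingHom ℚ)) QB) :=
    (Nat.bijective_iff_injective_and_card _).2 ⟨h1, h3⟩
  obtain ⟨g, hg⟩ := h4.2 π
  obtain ⟨σ, hσ⟩ := Polynomial.Gal.restrict_surjective (H.pol.map (Int.castRingHom ℚ)) QB g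
  refine ⟨σ, fun x => ?_⟩
  rw [← hg, ← hσ, Polynomial.Gal.galActionHom_restrict]

theorem swap_RR {H : HP} (hi : Irreducible (H.pol.map (Int.castRingHom ℚ)))
    (hc : Nat.card (H.pol.map (Int.castRingHom ℚ)).Gal = H.pol.natDegree.factorial)
    {x y : QB} (hx : x ∈ RR H) (hy : y ∈ RR H) :
    ∃ σ : GQ, σ x = y ∧ σ y = x ∧ ∀ z ∈ RR H, z ≠ x → z ≠ y → σ z = z := by
  obtain ⟨σ, hσ⟩ := full_RR hi hc
    (Equiv.swap ⟨x, (RR_rootSet H x).2 hx⟩ ⟨y, (RR_rootSet H y).2 hy⟩)
  refine ⟨σ, ?_, ?_, fun z hz h1 h2 => ?_⟩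
  · have h := hσ ⟨x, (RR_rootSet H x).2 hx⟩
    rw [Equiv.swap_apply_left] at h
    exact h
  · have h := hσ ⟨y, (RR_rootSet H y).2 hy⟩
    rw [Equiv.swap_apply_right] at h
    exact h
  · have h := hσ ⟨z, (RR_rootSet H z).2 hz⟩
    rw [Equiv.swap_apply_of_ne_of_ne (fun h => h1 (congrArg Subtype.val h))
      (fun h => h2 (congrArg Subtype.val h))] at h
    exact h

theorem two_trans {H : HP} (hi : Irreducible (H.pol.map (Int.castRingHom ℚ)))
    (hc : Nat.card (H.pol.map (Int.castRingHom ℚ)).Gal = H.pol.natDegree.factorial)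
    {a b x y : QB} (ha : a ∈ RR H) (hb : b ∈ RR H) (hx : x ∈ RR H) (hy : y ∈ RR H) (hab : a ≠ b)
    (hxy : x ≠ y) : ∃ σ : GQ, σ a = x ∧ σ b = y := by
  obtain ⟨σ, h1, h2, -⟩ := swap_RR hi hc ha hx
  obtain ⟨τ, h3, h4, h5⟩ := swap_RR hi hc (act_RR σ hb) hy
  refine ⟨τ * σ, ?_, ?_⟩
  · show τ (σ a) = x
    rw [h1]
    refine h5 x hx (fun h => ?_) hxy
    rw [← h1] at h
    exact hab (σ.injective h)
  · exact h3

theorem symj (hSG : S_SGP) : S_SYMJ := by
  intro H hi hc W hW
  haveI : HF (pol H QB) :=
    { monic := pol_monic _ _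
      odd := by
        unfold pol
        rw [H.monic.natDegree_map]
        exact H.odd
      sep := by
        rw [← rat_map]
        exact hi.separable.map
      two := two_ne_zero }
  by_cases hW0 : ∀ P ∈ W, P = 0
  · refine ⟨{ carrier := {P | P + P = 0}
              zero_mem' := by simp
              add_mem' := fun {P Q} hP hQ => dbl hSG hP hQ
              neg_mem' := fun {P} hP => ?_ }, fun P hP => ⟨hP, fun σ => ?_⟩, ?_, fun P hP => ?_⟩
    · show -P + -P = 0
      have e : -P + -P = -(P + P) := by abel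
      rw [e, hP, neg_zero]
    · show act H σ P + act H σ P = 0
      have hP' : P + P = 0 := hP
      rw [← act_add, hP', act_zero]
    · rw [eq_bot_iff]
      intro P hP
      exact (AddSubgroup.mem_bot).2 (hW0 P hP.1)
    · exact AddSubgroup.mem_sup_right hP
  · push Not at hW0
    obtain ⟨P0, hP0, hne⟩ := hW0
    have hP2 := (hW P0 hP0).1
    have hA0 : (NN H P0).Nonempty := by
      rw [Finset.nonempty_iff_ne_empty]
      exact fun h => hne (NN_zero hSG hP2 h)
    have hAe := NN_even hSG hP2
    have hAR : NN H P0 ⊆ RR H := Finset.filter_subset _ _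
    have hR := RR_card hi
    have key : ∀ x ∈ RR H, ∀ y ∈ RR H, x ≠ y → ∃ P ∈ W, NN H P = {x, y} := by
      intro x hx y hy hxy
      rcases hc with h3 | hf
      · rw [h3] at hR
        have h4 : (NN H P0).card = 2 := by
          have h5 := Finset.card_le_card hAR
          have h6 := Finset.card_pos.2 hA0
          obtain ⟨k, hk⟩ := hAe
          omega
        have h5 : (RR H \ NN H P0).card = 1 := by
          rw [Finset.card_sdiff_of_subset hAR]
          omega
        obtain ⟨c, hc⟩ := Finset.card_eq_one.1 h5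
        have hxyR : ({x, y} : Finset QB) ⊆ RR H := by
          intro w hw
          rw [Finset.mem_insert, Finset.mem_singleton] at hw
          rcases hw with rfl | rfl
          · exact hx
          · exact hy
        have h6 : (RR H \ {x, y}).card = 1 := by
          rw [Finset.card_sdiff_of_subset hxyR, Finset.card_pair hxy]
          omega
        obtain ⟨z, hz⟩ := Finset.card_eq_one.1 h6
        have hcm : c ∈ RR H ∧ c ∉ NN H P0 := by
          have : c ∈ RR H \ NN H P0 := by rw [hc]; exact Finset.mem_singleton_self _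
          rwa [Finset.mem_sdiff] at this
        have hzm : z ∈ RR H ∧ z ∉ ({x, y} : Finset QB) := by
          have : z ∈ RR H \ {x, y} := by rw [hz]; exact Finset.mem_singleton_self _
          rwa [Finset.mem_sdiff] at this
        obtain ⟨σ, hσ⟩ := trans_RR hi hcm.1 hzm.1
        refine ⟨act H σ P0, (hW P0 hP0).2 σ, ?_⟩
        ext w
        have e1 : w ∈ NN H (act H σ P0) ↔ σ.symm w ∈ NN H P0 := by
          rw [← NN_act hSG hP2 σ (σ.symm w), AlgEquiv.apply_symm_apply]
        rw [e1]
        constructor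
        · intro h
          have w1 : w ∈ RR H := by
            have := act_RR σ (hAR h)
            rwa [AlgEquiv.apply_symm_apply] at this
          by_contra h7
          have h8 : w ∈ RR H \ {x, y} := Finset.mem_sdiff.2 ⟨w1, h7⟩
          rw [hz, Finset.mem_singleton] at h8
          rw [h8, ← hσ, AlgEquiv.symm_apply_apply] at h
          exact hcm.2 h
        · intro h
          have w1 : w ∈ RR H := hxyR h
          by_contra h7
          have h8 : σ.symm w ∈ RR H \ NN H P0 := Finset.mem_sdiff.2 ⟨act_RR σ.symm w1, h7⟩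
          rw [hc, Finset.mem_singleton] at h8
          have h9 : w = z := by rw [← hσ, ← h8, AlgEquiv.apply_symm_apply]
          rw [h9] at h
          exact hzm.2 h
      · have h4 : ∃ y0 ∈ RR H, y0 ∉ NN H P0 := by
          by_contra h
          push Not at h
          have h5 : NN H P0 = RR H := Finset.Subset.antisymm hAR h
          rw [h5, hR] at hAe
          exact (Nat.not_even_iff_odd.2 H.odd) hAe
        obtain ⟨y0, hy0, hy0'⟩ := h4
        obtain ⟨x0, hx0⟩ := hA0
        obtain ⟨σ, hσ1, hσ2, hσ3⟩ := swap_RR hi hf (hAR hx0) hy0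
        have hne0 : x0 ≠ y0 := fun h => hy0' (h ▸ hx0)
        have hσP : act H σ P0 ∈ W := (hW P0 hP0).2 σ
        have hQ : NN H (P0 + act H σ P0) = {x0, y0} := by
          rw [NN_add hSG hP2 (hW _ hσP).1]
          ext w
          rw [Finset.mem_symmDiff, Finset.mem_insert, Finset.mem_singleton]
          by_cases h1 : w = x0
          · have e1 : w ∉ NN H (act H σ P0) := by
              rw [h1, ← hσ2, NN_act hSG hP2 σ]
              exact hy0'
            have e2 : w ∈ NN H P0 := h1 ▸ hx0
            exact ⟨fun _ => Or.inl h1, fun _ => Or.inl ⟨e2, e1⟩⟩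
          · by_cases h2 : w = y0
            · have e1 : w ∈ NN H (act H σ P0) := by
                rw [h2, ← hσ1, NN_act hSG hP2 σ]
                exact hx0
              have e2 : w ∉ NN H P0 := h2 ▸ hy0'
              exact ⟨fun _ => Or.inr h2, fun _ => Or.inr ⟨e1, e2⟩⟩
            · simp only [h1, h2, or_self, iff_false]
              by_cases hw : w ∈ RR H
              · have e1 : w ∈ NN H (act H σ P0) ↔ w ∈ NN H P0 := by
                  have := NN_act hSG hP2 σ w
                  rwa [hσ3 w hw h1 h2] at this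
                rw [e1]
                tauto
              · rintro (⟨a, -⟩ | ⟨a, -⟩)
                · exact hw (Finset.mem_filter.1 a).1
                · exact hw (Finset.mem_filter.1 a).1
        have hQW : P0 + act H σ P0 ∈ W := W.add_mem hP0 hσP
        obtain ⟨τ, hτ1, hτ2⟩ := two_trans hi hf (hAR hx0) hy0 hx hy hne0 hxy
        refine ⟨act H τ (P0 + act H σ P0), (hW _ hQW).2 τ, ?_⟩
        ext w
        have e1 : w ∈ NN H (act H τ (P0 + act H σ P0)) ↔
            τ.symm w ∈ NN H (P0 + act H σ P0) := by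
          rw [← NN_act hSG (hW _ hQW).1 τ (τ.symm w), AlgEquiv.apply_symm_apply]
        rw [e1, hQ, Finset.mem_insert, Finset.mem_singleton, Finset.mem_insert,
          Finset.mem_singleton, AlgEquiv.symm_apply_eq, AlgEquiv.symm_apply_eq, hτ1, hτ2]
    refine ⟨⊥, fun P hP => ?_, by simp, fun P hP => ?_⟩
    · rw [AddSubgroup.mem_bot] at hP
      subst hP
      refine ⟨add_zero _, fun σ => ?_⟩
      rw [act_zero]
      exact AddSubgroup.zero_mem _
    · exact AddSubgroup.mem_sup_left (all_pairs hSG W (fun P hP => (hW P hP).1) key P hP)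

end Pool.Agent.Q151.ESG
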